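import Pool.Agent.Helper73.TM.Ex

set_option autoImplicit false
set_option linter.unusedSectionVars false

/-!
# Coincidences in the exact tie model
-/

namespace Helper73.TM

open Helper11.N1 Helper55.KE

section

variable {p l a b : ℕ} [NeZero p] [NeZero l] {z : ZMod p → ZMod (p * l)} {i0 ρ : ZMod p}
  {τ : ZMod (p * l)} {k : ℤ}

theorem pl0 : ((p : ZMod (p * l)) * (l : ZMod (p * l))) = 0 := by
  rw [← Nat.cast_mul, ZMod.natCast_self]

/-- multiples of `τ` -/
theorem EX.mul_eq_zero (h : EX p l a b z i0 ρ τ k) {x : ℤ} :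
    ((x : ℤ) : ZMod (p * l)) * τ = 0 ↔ ((p * l : ℕ) : ℤ) ∣ x := by
  rw [h.hu.mul_left_eq_zero, ZMod.intCast_zmod_eq_zero_iff_dvd]

/-- `e` of an integer -/
theorem e_int' (x : ℤ) : e p l ((x : ℤ) : ZMod p) = ((x * l : ℤ) : ZMod (p * l)) := by
  obtain ⟨n, rfl | rfl⟩ := Int.eq_nat_or_neg x
  · rw [Int.cast_natCast, e_natCast]
    push_cast
    ring
  · rw [Int.cast_neg, Int.cast_natCast, e_neg, e_natCast]
    push_cast
    ring

/-- the tie vector in the second coordinate -/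
theorem EX.hls (h : EX p l a b z i0 ρ τ k) :
    (l : ZMod (p * l)) * (τ + e p l ρ) = ((k * l : ℤ) : ZMod (p * l)) := by
  have h1 := congrArg (e p l) h.hlr
  rw [e_mul, e_int'] at h1
  rw [mul_add, h.hlt, h1]
  push_cast
  ring

/-- positions of the clusters -/
theorem EX.zn (h : EX p l a b z i0 ρ τ k) {n : ℕ} (hn : n < p) :
    z (i0 + (n : ZMod p) * ρ) = z i0 + (n : ZMod (p * l)) * τ := h.hAP.2 n hn

theorem EX.sn (h : EX p l a b z i0 ρ τ k) {n : ℕ} (hn : n < p) :
    sc l z (i0 + (n : ZMod p) * ρ) = sc l z i0 + (n : ZMod (p * l)) * (τ + e p l ρ) :=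
  ap_sc h.hAP hn

/-- two clusters at the same position are equal -/
theorem EX.zinj (h : EX p l a b z i0 ρ τ k) {i j : ZMod p} (hij : z i = z j) : i = j := by
  obtain ⟨n, hn, rfl⟩ := ap_row h.hAP i
  obtain ⟨m, hm, rfl⟩ := ap_row h.hAP j
  rw [h.zn hn, h.zn hm] at hij
  have h1 : (((n : ℤ) - m : ℤ) : ZMod (p * l)) * τ = 0 := by
    push_cast
    linear_combination hij
  rw [h.mul_eq_zero] at h1
  obtain ⟨s, hs⟩ := h1
  have hl0 : 0 < l := Nat.pos_of_ne_zero (NeZero.ne l)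
  have hpl : (p : ℤ) ≤ ((p * l : ℕ) : ℤ) := by
    have : p * 1 ≤ p * l := Nat.mul_le_mul_left p hl0
    rw [mul_one] at this
    exact_mod_cast this
  have hs0 : s = 0 := by
    rcases lt_trichotomy s 0 with h2 | h2 | h2
    · have : ((p * l : ℕ) : ℤ) * s ≤ ((p * l : ℕ) : ℤ) * (-1) :=
        mul_le_mul_of_nonneg_left (by omega) (by positivity)
      omega
    · exact h2
    · have : ((p * l : ℕ) : ℤ) * 1 ≤ ((p * l : ℕ) : ℤ) * s :=
        mul_le_mul_of_nonneg_left (by omega) (by positivity)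
      omega
  rw [hs0, mul_zero] at hs
  have : n = m := by omega
  rw [this]

/-- the right side of `n` is the left side of `m` iff `n = m + l` -/
theorem EX.tie_iff (h : EX p l a b z i0 ρ τ k) {n m : ℕ} (hn : n < p) (hm : m < p) :
    z (i0 + (m : ZMod p) * ρ) - b * l = z (i0 + (n : ZMod p) * ρ) ↔ m + l = n := by
  have hlt := h.hlt
  have hlp := h.hlp
  have hl2 := h.hl2
  rw [h.zn hn, h.zn hm]
  constructor
  · intro h1
    have h2 : (((m : ℤ) + l - n : ℤ) : ZMod (p * l)) * τ = 0 := by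
      push_cast
      linear_combination h1 + hlt
    rw [h.mul_eq_zero] at h2
    obtain ⟨s, hs⟩ := h2
    have hpl : (2 * p : ℤ) ≤ ((p * l : ℕ) : ℤ) := by
      have : p * 2 ≤ p * l := Nat.mul_le_mul_left p hl2
      have h3 : ((p * 2 : ℕ) : ℤ) ≤ ((p * l : ℕ) : ℤ) := by exact_mod_cast this
      push_cast at h3 ⊢
      linarith
    have hs0 : s = 0 := by
      rcases lt_trichotomy s 0 with h2 | h2 | h2
      · have : ((p * l : ℕ) : ℤ) * s ≤ ((p * l : ℕ) : ℤ) * (-1) :=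
          mul_le_mul_of_nonneg_left (by omega) (by positivity)
        omega
      · exact h2
      · have : ((p * l : ℕ) : ℤ) * 1 ≤ ((p * l : ℕ) : ℤ) * s :=
          mul_le_mul_of_nonneg_left (by omega) (by positivity)
        omega
    rw [hs0, mul_zero] at hs
    omega
  · rintro rfl
    push_cast
    linear_combination -hlt

/-- the tie partner of the right side -/
theorem EX.tie (h : EX p l a b z i0 ρ τ k) {n : ℕ} (hln : l ≤ n) (hn : n < p) :
    z (i0 + ((n - l : ℕ) : ZMod p) * ρ) - b * l = z (i0 + (n : ZMod p) * ρ) :=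
  (h.tie_iff hn (by omega)).2 (by omega)

/-- the row of the tie partner -/
theorem EX.row (h : EX p l a b z i0 ρ τ k) {n : ℕ} (hln : l ≤ n) :
    i0 + ((n - l : ℕ) : ZMod p) * ρ = i0 + (n : ZMod p) * ρ - ((k + b : ℤ) : ZMod p) := by
  rw [Nat.cast_sub hln, ← h.hlr]
  ring

/-- the second coordinates of two clusters differ by a multiple of `l` iff the indices do -/
theorem EX.sdiff (h : EX p l a b z i0 ρ τ k) {n m : ℕ} (hn : n < p) (hm : m < p) {x : ℤ}
    (hx : sc l z (i0 + (m : ZMod p) * ρ) + ((x * l : ℤ) : ZMod (p * l)) =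
      sc l z (i0 + (n : ZMod p) * ρ)) :
    ∃ j : ℤ, (n : ℤ) - m = j * l ∧ (p : ℤ) ∣ j * k - x := by
  have hl0 : 0 < l := Nat.pos_of_ne_zero (NeZero.ne l)
  have hl0' : (l : ℤ) ≠ 0 := by
    have : l ≠ 0 := by omega
    exact_mod_cast this
  rw [h.sn hn, h.sn hm] at hx
  have h1 : (((n : ℤ) - m : ℤ) : ZMod (p * l)) * (τ + e p l ρ) = ((x * l : ℤ) : ZMod (p * l)) := by
    push_cast at hx ⊢
    linear_combination -hx
  -- modulo `l`
  have h2 : (((n : ℤ) - m : ℤ) : ZMod l) = 0 := by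
    have h3 := congrArg (res p l) h1
    rw [map_mul, map_add, res_e, add_zero, res_int, res_int] at h3
    have h4 : IsUnit (res p l τ) := h.hu.map _
    have h5 : ((x * l : ℤ) : ZMod l) = 0 := by
      push_cast
      rw [ZMod.natCast_self, mul_zero]
    rw [h5] at h3
    exact (h4.mul_left_eq_zero).1 h3
  rw [ZMod.intCast_zmod_eq_zero_iff_dvd] at h2
  obtain ⟨j, hj⟩ := h2
  refine ⟨j, by rw [hj]; ring, ?_⟩
  rw [hj] at h1
  have h6 : (((j * k - x) * l : ℤ) : ZMod (p * l)) = 0 := by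
    have h7 := h.hls
    push_cast at h1 h7 ⊢
    linear_combination h1 - (j : ZMod (p * l)) * h7
  rw [ZMod.intCast_zmod_eq_zero_iff_dvd] at h6
  push_cast at h6
  exact (mul_dvd_mul_iff_right hl0').1 h6

/-- coincidence of two bottom (or two top) lines -/
theorem EX.bb (h : EX p l a b z i0 ρ τ k) {n m : ℕ} (hn : n < p) (hm : m < p)
    (hx : sc l z (i0 + (m : ZMod p) * ρ) = sc l z (i0 + (n : ZMod p) * ρ)) :
    ∃ j : ℤ, (n : ℤ) - m = j * l ∧ (p : ℤ) ∣ j * k := by
  obtain ⟨j, h1, h2⟩ := h.sdiff hn hm (x := 0) (by rw [← hx]; push_cast; ring)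
  exact ⟨j, h1, by rwa [sub_zero] at h2⟩

/-- the top line of `m` is the bottom line of `n` -/
theorem EX.tb (h : EX p l a b z i0 ρ τ k) {n m : ℕ} (hn : n < p) (hm : m < p)
    (hx : sc l z (i0 + (m : ZMod p) * ρ) + a * l = sc l z (i0 + (n : ZMod p) * ρ)) :
    ∃ j : ℤ, (n : ℤ) - m = j * l ∧ (p : ℤ) ∣ j * k - a :=
  h.sdiff hn hm (x := a) (by rw [← hx]; push_cast; ring)

/-- the reversed model: the tie goes from the left to the right -/
theorem EX.srow (h : EX p l a b z i0 ρ τ k) {n : ℕ} (hln : l ≤ n) (hn : n < p) :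
    sc l z (i0 + ((n - l : ℕ) : ZMod p) * ρ) =
      sc l z (i0 + (n : ZMod p) * ρ) - ((k * l : ℤ) : ZMod (p * l)) := by
  rw [h.sn (by omega), h.sn hn, ← h.hls, Nat.cast_sub hln]
  ring

end

end Helper73.TM
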