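import Pool.Agent.Helper55.KE.ML

set_option autoImplicit false
set_option linter.unusedSectionVars false

/-!
# The exact tie model: transfer of the triangle counts

A progression with a tie vector of index `l` (`l θ = - b q - ε`) is compared with the progression
`n τ` on the circle `ZMod (p * l)`, `q τ = l θ + ε`.
-/

namespace Helper73.TM

open Helper11.N1 Helper55.KE

/-- the first true position which belongs to the exact position `Y` -/
def ph (q l c : ℕ) (Y : ℤ) : ℤ := if c = 0 then ((Y - 1) * q) / l + 1 else -((-(Y * q)) / l)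

section

variable {q l c : ℕ}

theorem ph_lt (hl : 0 < l) (hc : c ≤ 1) {Y Z' Z n : ℤ} (hn0 : 0 ≤ n) (hn : n < q)
    (h : (l : ℤ) * Z = q * Z' - (1 - 2 * c) * n) : Z < ph q l c Y ↔ Z' < Y := by
  have hl' : (0 : ℤ) < l := by exact_mod_cast hl
  have hq : (0 : ℤ) < q := by linarith
  rcases (by omega : c = 0 ∨ c = 1) with rfl | rfl
  · have e1 : ph q l 0 Y = ((Y - 1) * q) / l + 1 := by unfold ph; rw [if_pos rfl]
    rw [e1, Int.lt_add_one_iff, Int.le_ediv_iff_mul_le hl']
    push_cast at h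
    constructor
    · intro h1
      by_contra h2
      have h3 : Y ≤ Z' := not_lt.1 h2
      have h4 : (q : ℤ) * Y ≤ q * Z' := mul_le_mul_of_nonneg_left h3 hq.le
      linarith
    · intro h1
      have h3 : Z' ≤ Y - 1 := by omega
      have h4 : (q : ℤ) * Z' ≤ q * (Y - 1) := mul_le_mul_of_nonneg_left h3 hq.le
      linarith
  · have e1 : ph q l 1 Y = -((-(Y * q)) / l) := by unfold ph; rw [if_neg (by omega)]
    rw [e1, lt_neg, Int.ediv_lt_iff_lt_mul hl']
    push_cast at h
    constructor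
    · intro h1
      by_contra h2
      have h3 : Y ≤ Z' := not_lt.1 h2
      have h4 : (q : ℤ) * Y ≤ q * Z' := mul_le_mul_of_nonneg_left h3 hq.le
      linarith
    · intro h1
      have h3 : Z' ≤ Y - 1 := by omega
      have h4 : (q : ℤ) * Z' ≤ q * (Y - 1) := mul_le_mul_of_nonneg_left h3 hq.le
      linarith

theorem ph_shift (hl : 0 < l) (p : ℕ) (Y s : ℤ) :
    ph q l c (Y + s * (p * l)) = ph q l c Y + s * (p * q) := by
  have hl' : (l : ℤ) ≠ 0 := by
    have : l ≠ 0 := by omega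
    exact_mod_cast this
  unfold ph
  split_ifs
  · have e1 : (Y + s * (p * l) - 1) * q = (Y - 1) * q + (s * (p * q)) * l := by ring
    rw [e1, Int.add_mul_ediv_right _ _ hl']
    ring
  · have e1 : -((Y + s * (p * l)) * q) = -(Y * q) + (-(s * (p * q))) * l := by ring
    rw [e1, Int.add_mul_ediv_right _ _ hl']
    ring

theorem ph_mono (hl : 0 < l) (hlq : l ≤ q) {Y Y' : ℤ} (h : Y < Y') : ph q l c Y < ph q l c Y' := by
  have hl' : (0 : ℤ) < l := by exact_mod_cast hl
  have hlq' : (l : ℤ) ≤ q := by exact_mod_cast hlq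
  unfold ph
  split_ifs
  · have h1 : ((Y - 1) * q) / l + 1 ≤ ((Y' - 1) * q) / l := by
      rw [Int.le_ediv_iff_mul_le hl']
      have h2 := Int.ediv_mul_le ((Y - 1) * q) hl'.ne'
      have h3 : (q : ℤ) * (Y + 1) ≤ q * Y' := mul_le_mul_of_nonneg_left (by omega) (by linarith)
      linarith
    linarith
  · have h1 : (-(Y' * q)) / l + 1 ≤ (-(Y * q)) / l := by
      rw [Int.le_ediv_iff_mul_le hl']
      have h2 := Int.ediv_mul_le (-(Y' * q)) hl'.ne'
      have h3 : (q : ℤ) * (Y + 1) ≤ q * Y' := mul_le_mul_of_nonneg_left (by omega) (by linarith)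
      linarith
    linarith

/-- a cut of the exact model does not lie inside a tie -/
theorem ph_ne (hl : 0 < l) (hc : c ≤ 1) {Y Z' Z n : ℤ} (hn0 : (l : ℤ) ≤ n) (hn : n < q)
    (h : (l : ℤ) * Z = q * Z' - (1 - 2 * c) * n) : ph q l c Y ≠ Z + (1 - c) := by
  intro h0
  have hl' : (0 : ℤ) < l := by exact_mod_cast hl
  have h1 := ph_lt (Y := Y) hl hc (by linarith) hn h
  have h2 := ph_lt (Y := Y) (Z := Z + (1 - 2 * c)) (Z' := Z') (n := n - l) hl hc (by linarith)
    (by linarith) (by rw [mul_add, h]; ring)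
  rcases (by omega : c = 0 ∨ c = 1) with rfl | rfl
  · push_cast at h0 h2
    have h3 : Z' < Y := h1.1 (by linarith)
    have h4 := h2.2 h3
    linarith
  · push_cast at h0 h2
    have h3 : Z' < Y := h2.1 (by linarith)
    have h4 := h1.2 h3
    linarith

end

/-- corresponding positions -/
def Rel {p : ℕ} (q l c : ℕ) (z0 : ZMod (p * q)) (x' : ZMod (p * l)) (x : ZMod (p * q)) : Prop :=
  ∃ Z' Z n : ℤ, 0 ≤ n ∧ n < q ∧ (l : ℤ) * Z = q * Z' - (1 - 2 * c) * n ∧
    x' = ((Z' : ℤ) : ZMod (p * l)) ∧ x = z0 + ((Z : ℤ) : ZMod (p * q))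

section

variable {p q l c : ℕ} [NeZero p] [NeZero q] [NeZero l]

/-- the distance as an integer -/
theorem off_int {M : ℕ} [NeZero M] {x y : ZMod M} {X Y : ℤ} (hx : x = ((X : ℤ) : ZMod M))
    (hy : y = ((Y : ℤ) : ZMod M)) : ∃ s : ℤ, Y + s * M = X + (off x y : ℤ) := by
  have h1 : (((off x y : ℕ) : ℤ) : ZMod M) = ((Y - X : ℤ) : ZMod M) := by
    unfold off
    rw [Int.cast_natCast, ZMod.natCast_zmod_val, hx, hy]
    push_cast
    ring
  rw [ZMod.intCast_eq_intCast_iff_dvd_sub] at h1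
  obtain ⟨s, hs⟩ := h1
  exact ⟨-s, by linarith [mul_comm s (M : ℤ)]⟩

/-- the distance of two integers which are close -/
theorem off_of_int {M : ℕ} [NeZero M] {x y : ZMod M} {X Y : ℤ} (hx : x = ((X : ℤ) : ZMod M))
    (hy : y = ((Y : ℤ) : ZMod M)) (h0 : X ≤ Y) (h1 : Y < X + M) : (off x y : ℤ) = Y - X := by
  have h2 : y - x = (((Y - X).toNat : ℕ) : ZMod M) := by
    have h3 : (((Y - X).toNat : ℕ) : ℤ) = Y - X := Int.toNat_of_nonneg (by linarith)
    have h4 : (((Y - X).toNat : ℕ) : ZMod M) = ((Y - X : ℤ) : ZMod M) := by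
      rw [← Int.cast_natCast, h3]
    rw [h4, hx, hy]
    push_cast
    ring
  unfold off
  rw [h2, ZMod.val_natCast_of_lt (by omega)]
  exact Int.toNat_of_nonneg (by linarith)

/-- the true position of the exact position -/
def tp (q l c : ℕ) {p : ℕ} (z0 : ZMod (p * q)) (X' : ZMod (p * l)) : ZMod (p * q) :=
  z0 + ((ph q l c (X'.val : ℤ) : ℤ) : ZMod (p * q))

/-- the true ordinate -/
def ts (q l c : ℕ) {p : ℕ} (z0 : ZMod (p * q)) (X' : ZMod (p * l)) (W : ZMod p)
    (S' : ZMod (p * l)) : ZMod (p * q) :=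
  z0 + ((ph q l c ((X'.val : ℤ) + (off (X' + e p l W) S' : ℤ)) : ℤ) : ZMod (p * q)) + e p q W

theorem tri_iff (hlq : l ≤ q) (hc : c ≤ 1) {z0 : ZMod (p * q)} {x' : ZMod (p * l)}
    {x : ZMod (p * q)} (h : Rel q l c z0 x' x) (X' : ZMod (p * l)) (W : ZMod p)
    (S' : ZMod (p * l)) (j : ZMod p) :
    tri l X' W S' x' j ↔ tri q (tp q l c z0 X') W (ts q l c z0 X' W S') x j := by
  obtain ⟨Z', Z, n, hn0, hn, hZ, hx', hx⟩ := h
  have hl0 : 0 < l := Nat.pos_of_ne_zero (NeZero.ne l)
  have hp0 : 0 < p := Nat.pos_of_ne_zero (NeZero.ne p)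
  have hX' : X' = (((X'.val : ℕ) : ℤ) : ZMod (p * l)) := by
    rw [Int.cast_natCast, ZMod.natCast_zmod_val]
  obtain ⟨s, hs⟩ := off_int hX' hx'
  have hlt : (off X' x' : ℤ) < ((p * l : ℕ) : ℤ) := by
    have := off_lt X' x'
    exact_mod_cast this
  set T' := off (X' + e p l W) S' with hT'
  have hT'lt : (T' : ℤ) < ((p * l : ℕ) : ℤ) := by
    have := off_lt (X' + e p l W) S'
    exact_mod_cast this
  push_cast at hs hlt hT'lt
  -- the distance of `x`
  have hZs : (l : ℤ) * (Z + s * (p * q)) = q * (Z' + s * (p * l)) - (1 - 2 * c) * n := by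
    rw [mul_add, hZ]
    ring
  have hoff : (off (tp q l c z0 X') x : ℤ) = Z + s * (p * q) - ph q l c (X'.val : ℤ) := by
    have hxx : x - z0 = ((Z + s * (p * q) : ℤ) : ZMod (p * q)) := by
      rw [hx]
      have : ((p : ZMod (p * q)) * (q : ZMod (p * q))) = 0 := by
        rw [← Nat.cast_mul, ZMod.natCast_self]
      push_cast
      rw [this]
      ring
    have h1 : off (tp q l c z0 X') x = off (((ph q l c (X'.val : ℤ) : ℤ) : ZMod (p * q))) (x - z0) := by
      unfold off tp
      congr 1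
      ring
    rw [h1]
    refine off_of_int rfl hxx ?_ ?_
    · have h2 := ph_lt (Y := (X'.val : ℤ)) hl0 hc hn0 hn hZs
      by_contra h3
      have := h2.1 (not_le.1 h3)
      linarith [(Int.natCast_nonneg (off X' x'))]
    · have h2 := ph_lt (Y := (X'.val : ℤ) + 1 * (p * l)) hl0 hc hn0 hn hZs
      rw [ph_shift hl0 p] at h2
      have := h2.2 (by linarith)
      push_cast
      linarith
  -- the distance of the ordinate
  have hoffS : (off (tp q l c z0 X' + e p q W) (ts q l c z0 X' W S') : ℤ) =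
      ph q l c ((X'.val : ℤ) + (T' : ℤ)) - ph q l c (X'.val : ℤ) := by
    have h1 : off (tp q l c z0 X' + e p q W) (ts q l c z0 X' W S') =
        off (((ph q l c (X'.val : ℤ) : ℤ) : ZMod (p * q)))
          (((ph q l c ((X'.val : ℤ) + (T' : ℤ)) : ℤ) : ZMod (p * q))) := by
      unfold off tp ts
      rw [← hT']
      congr 1
      ring
    rw [h1]
    refine off_of_int rfl rfl ?_ ?_
    · rcases Nat.eq_zero_or_pos T' with h2 | h2
      · rw [h2]
        simp
      · exact (ph_mono hl0 hlq (by omega)).le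
    · have h2 := ph_mono (c := c) (q := q) hl0 hlq (Y := (X'.val : ℤ) + (T' : ℤ))
        (Y' := (X'.val : ℤ) + 1 * (p * l)) (by linarith)
      rw [ph_shift hl0 p] at h2
      push_cast
      linarith
  -- comparison
  unfold tri
  rw [← hT']
  have k1 : off (tp q l c z0 X') x + q * (j - W).val <
      off (tp q l c z0 X' + e p q W) (ts q l c z0 X' W S') ↔
      Z + s * (p * q) + q * ((j - W).val : ℤ) < ph q l c ((X'.val : ℤ) + (T' : ℤ)) := by
    constructor
    · intro h1
      have h2 : (off (tp q l c z0 X') x : ℤ) + q * ((j - W).val : ℤ) <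
        (off (tp q l c z0 X' + e p q W) (ts q l c z0 X' W S') : ℤ) := by exact_mod_cast h1
      linarith
    · intro h1
      have h2 : (off (tp q l c z0 X') x : ℤ) + q * ((j - W).val : ℤ) <
        (off (tp q l c z0 X' + e p q W) (ts q l c z0 X' W S') : ℤ) := by linarith
      exact_mod_cast h2
  have k2 : off X' x' + l * (j - W).val < T' ↔
      Z' + s * (p * l) + l * ((j - W).val : ℤ) < (X'.val : ℤ) + (T' : ℤ) := by
    constructor
    · intro h1
      have h2 : (off X' x' : ℤ) + l * ((j - W).val : ℤ) < (T' : ℤ) := by exact_mod_cast h1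
      linarith
    · intro h1
      have h2 : (off X' x' : ℤ) + l * ((j - W).val : ℤ) < (T' : ℤ) := by linarith
      exact_mod_cast h2
  rw [k1, k2]
  symm
  apply ph_lt hl0 hc hn0 hn
  rw [mul_add, hZs]
  ring

/-- the cut of the exact model is not inside a tie -/
theorem tp_ne (hc : c ≤ 1) {z0 : ZMod (p * q)} {Z' Z n : ℤ}
    (hn0 : (l : ℤ) ≤ n) (hn : n < q) (hZ : (l : ℤ) * Z = q * Z' - (1 - 2 * c) * n)
    (X' : ZMod (p * l)) :
    tp q l c z0 X' ≠ z0 + ((Z : ℤ) : ZMod (p * q)) + ((1 - c : ℤ) : ZMod (p * q)) := by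
  intro h
  have hl0 : 0 < l := Nat.pos_of_ne_zero (NeZero.ne l)
  unfold tp at h
  rw [add_assoc] at h
  have h1 := add_left_cancel h
  rw [← Int.cast_add, ZMod.intCast_eq_intCast_iff_dvd_sub] at h1
  obtain ⟨s, hs⟩ := h1
  refine ph_ne (Y := (X'.val : ℤ)) (Z' := Z' + -s * (p * l)) (Z := Z + -s * (p * q)) hl0 hc hn0 hn ?_ ?_
  · rw [mul_add, hZ]
    ring
  · push_cast at hs
    linarith

end

end Helper73.TM
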