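import Pool.Agent.Helper73.TM.Base

set_option autoImplicit false
set_option linter.unusedSectionVars false

/-!
# The exact tie model of a progression with a tie vector
-/

namespace Helper73.TM

open Helper11.N1 Helper55.KE

/-- the exact tie model: a flat progression on the circle `ZMod (p * l)` with the tie
`l τ = - b l`: the right side of `n` is the left side of `n - l` -/
structure EX (p l a b : ℕ) [NeZero p] [NeZero l] (z : ZMod p → ZMod (p * l)) (i0 ρ : ZMod p)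
    (τ : ZMod (p * l)) (k : ℤ) : Prop where
  hP : Par p l a b
  hl2 : 2 ≤ l
  hlp : l < p
  hAP : AP l z i0 ρ τ
  hu : IsUnit τ
  hF : ∀ X W S, |FF l a b z X W S| ≤ 1
  hlt : (l : ZMod (p * l)) * τ = -((b : ZMod (p * l)) * (l : ZMod (p * l)))
  hlr : (l : ZMod p) * ρ = ((k + b : ℤ) : ZMod p)

section

variable {p q l a b c : ℕ} [NeZero p] [NeZero q] [NeZero l]

/-- the progression with start `0` -/
def zx (l : ℕ) {p : ℕ} (i0 ρ : ZMod p) (τ : ZMod (p * l)) (j : ZMod p) : ZMod (p * l) :=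
  ((((j - i0) * ρ⁻¹).val : ℕ) : ZMod (p * l)) * τ

theorem zx_at {i0 ρ : ZMod p} (hρ : IsUnit ρ) (τ : ZMod (p * l)) {n : ℕ} (hn : n < p) :
    zx l i0 ρ τ (i0 + (n : ZMod p) * ρ) = (n : ZMod (p * l)) * τ := by
  unfold zx
  rw [add_sub_cancel_left, mul_assoc, ZMod.mul_inv_of_unit _ hρ, mul_one,
    ZMod.val_natCast_of_lt hn]

theorem ap_zx {i0 ρ : ZMod p} (hρ : IsUnit ρ) (τ : ZMod (p * l)) :
    AP l (zx l i0 ρ τ) i0 ρ τ := by
  have hp0 : 0 < p := Nat.pos_of_ne_zero (NeZero.ne p)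
  refine ⟨hρ, fun n hn => ?_⟩
  have h0 := zx_at hρ τ (i0 := i0) (n := 0) hp0
  rw [Nat.cast_zero, zero_mul, add_zero, Nat.cast_zero, zero_mul] at h0
  rw [zx_at hρ τ hn, h0, zero_add]

/-- the integers of the two models -/
theorem exists_tau {z : ZMod p → ZMod (p * q)} {i0 ρ : ZMod p} {θ : ZMod (p * q)} {δ : ℕ} {k : ℤ}
    (h : LS p q a b c z i0 ρ θ δ l k) : ∃ T Th i : ℤ, θ = ((Th : ℤ) : ZMod (p * q)) ∧
      (l : ℤ) * Th = q * T - (1 - 2 * c) ∧ T = p * i - b := by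
  have h1 : ((l : ℤ) * (θ.val : ℤ) : ℤ) = ((l * θ.val : ℕ) : ℤ) := by push_cast; ring
  have h2 : (((l : ℤ) * (θ.val : ℤ) : ℤ) : ZMod (p * q)) =
      ((-(b * q) - (1 - 2 * c) : ℤ) : ZMod (p * q)) := by
    rw [← h.hxl]
    push_cast
    rw [ZMod.natCast_zmod_val]
  rw [ZMod.intCast_eq_intCast_iff_dvd_sub] at h2
  obtain ⟨i, hi⟩ := h2
  refine ⟨p * -i - b, θ.val, -i, ?_, ?_, rfl⟩
  · rw [Int.cast_natCast, ZMod.natCast_zmod_val]
  · push_cast at hi
    linarith

/-- the counting functions agree -/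
theorem ff_eq (hlq : l ≤ q) (hc : c ≤ 1) (z0 : ZMod (p * q)) {z : ZMod p → ZMod (p * q)}
    {z' : ZMod p → ZMod (p * l)} (h1 : ∀ j, Rel q l c z0 (z' j) (z j))
    (h2 : ∀ j, Rel q l c z0 (z' j - b * l) (z j - b * q)) (X' : ZMod (p * l)) (W : ZMod p)
    (S' : ZMod (p * l)) :
    FF l a b z' X' W S' = FF q a b z (tp q l c z0 X') W (ts q l c z0 X' W S') := by
  classical
  unfold FF
  refine Finset.sum_congr rfl fun j _ => ?_
  simp only [tri_iff hlq hc (h1 j) X' W S', tri_iff hlq hc (h2 j) X' W S']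

/-- overlap vectors of the exact model -/
theorem kk_of {z : ZMod p → ZMod (p * q)} {i0 ρ : ZMod p} {θ : ZMod (p * q)} {δ : ℕ} {k : ℤ}
    (h : LS p q a b c z i0 ρ θ δ l k) {T Th : ℤ}
    (hTh : θ = ((Th : ℤ) : ZMod (p * q)))
    (hT : (l : ℤ) * Th = q * T - (1 - 2 * c)) {n : ℕ} {X Y : ℤ}
    (hK : KK p l a b ((T : ℤ) : ZMod (p * l)) (((T : ℤ) : ZMod (p * l)) + e p l ρ) n X Y) :
    ∃ x y : ℤ, (l : ℤ) * x = q * X - (1 - 2 * c) * n ∧ (l : ℤ) * y = q * Y - (1 - 2 * c) * n ∧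
      KK p q a b θ (θ + e p q ρ) n x y := by
  obtain ⟨hn0, hn, hX, hY, hXb, hYa⟩ := hK
  have hl0 : (0 : ℤ) < l := by
    have : 0 < l := Nat.pos_of_ne_zero (NeZero.ne l)
    exact_mod_cast this
  have hq0 : (0 : ℤ) < q := by
    have : 0 < q := Nat.pos_of_ne_zero (NeZero.ne q)
    exact_mod_cast this
  have hnq : (n : ℤ) < q := by
    have := h.hpq
    omega
  have hc := h.hB.hc
  -- lifts
  have h1 : (((n : ℤ) * T : ℤ) : ZMod (p * l)) = ((X : ℤ) : ZMod (p * l)) := by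
    rw [← hX]; push_cast; ring
  rw [ZMod.intCast_eq_intCast_iff_dvd_sub] at h1
  obtain ⟨s, hs⟩ := h1
  push_cast at hs
  have he : e p l ρ = ((ρ.val * l : ℕ) : ZMod (p * l)) := by
    have := e_natCast p l ρ.val
    rwa [ZMod.natCast_zmod_val] at this
  have he' : e p q ρ = ((ρ.val * q : ℕ) : ZMod (p * q)) := by
    have := e_natCast p q ρ.val
    rwa [ZMod.natCast_zmod_val] at this
  have h2 : (((n : ℤ) * (T + ρ.val * l) : ℤ) : ZMod (p * l)) = ((Y : ℤ) : ZMod (p * l)) := by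
    rw [← hY, he]
    push_cast
    ring
  rw [ZMod.intCast_eq_intCast_iff_dvd_sub] at h2
  obtain ⟨t, ht⟩ := h2
  push_cast at ht
  have hx1 : (l : ℤ) * (n * Th + s * (p * q)) = q * X - (1 - 2 * c) * n := by
    have : X = n * T + p * l * s := by linarith
    rw [this]
    linear_combination (n : ℤ) * hT
  have hy1 : (l : ℤ) * (n * (Th + ρ.val * q) + t * (p * q)) = q * Y - (1 - 2 * c) * n := by
    have : Y = n * (T + ρ.val * l) + p * l * t := by linarith
    rw [this]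
    linear_combination (n : ℤ) * hT
  have hn0' : (0 : ℤ) < n := by exact_mod_cast hn0
  -- bounds
  have hbound : ∀ (u : ℕ) (Z Z' : ℤ), (l : ℤ) * Z = q * Z' - (1 - 2 * c) * n → |Z'| < u * l →
      |Z| < u * q := by
    intro u Z Z' h3 h4
    rw [abs_lt] at h4 ⊢
    have h5 : (q : ℤ) * (Z' + 1) ≤ q * (u * l) := mul_le_mul_of_nonneg_left (by omega) hq0.le
    have h6 : (q : ℤ) * (-(u * l) + 1) ≤ q * Z' := mul_le_mul_of_nonneg_left (by omega) hq0.le
    constructor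
    · by_contra h7
      have h8 : (l : ℤ) * Z ≤ l * (-(u * q)) := mul_le_mul_of_nonneg_left (not_lt.1 h7) hl0.le
      rcases (by omega : c = 0 ∨ c = 1) with rfl | rfl <;> push_cast at h3 <;> linarith
    · by_contra h7
      have h8 : (l : ℤ) * (u * q) ≤ l * Z := mul_le_mul_of_nonneg_left (not_lt.1 h7) hl0.le
      rcases (by omega : c = 0 ∨ c = 1) with rfl | rfl <;> push_cast at h3 <;> linarith
  have hpq0 : ((p : ZMod (p * q)) * (q : ZMod (p * q))) = 0 := by
    rw [← Nat.cast_mul, ZMod.natCast_self]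
  refine ⟨n * Th + s * (p * q), n * (Th + ρ.val * q) + t * (p * q), hx1, hy1, hn0, hn, ?_, ?_,
    hbound b _ _ hx1 hXb, hbound a _ _ hy1 hYa⟩
  · rw [hTh]
    push_cast
    rw [hpq0]
    ring
  · rw [hTh, he']
    push_cast
    rw [hpq0]
    ring

/-- THE TRANSFER: the exact tie model of a progression which is flat except inside the ties of the
first kind -/
theorem ex_of_ls {z : ZMod p → ZMod (p * q)} {i0 ρ : ZMod p} {θ : ZMod (p * q)} {δ : ℕ} {k : ℤ}
    (h : LS p q a b c z i0 ρ θ δ l k) (hl2 : 2 ≤ l) (hbp : b.Coprime p) (h2b : 2 * b < p)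
    (hFI : ∀ X W S, (∀ n : ℕ, l ≤ n → n < p →
      X ≠ z (i0 + (n : ZMod p) * ρ) + ((1 - c : ℤ) : ZMod (p * q))) → |FF q a b z X W S| ≤ 1) :
    ∃ (z' : ZMod p → ZMod (p * l)) (τ : ZMod (p * l)), EX p l a b z' i0 ρ τ k ∧
      ∀ (n : ℕ) (X Y : ℤ), KK p l a b τ (τ + e p l ρ) n X Y → n ≠ l ∧
        ∃ x y : ℤ, (l : ℤ) * x = q * X - (1 - 2 * c) * n ∧ (l : ℤ) * y = q * Y - (1 - 2 * c) * n ∧
          KK p q a b θ (θ + e p q ρ) n x y := by
  obtain ⟨T, Th, i, hTh, hT, hTi⟩ := exists_tau h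
  have hc := h.hB.hc
  have hlp := h.hl
  have hpq := h.hpq
  have hl0 : 0 < l := h.hl0
  have hP := h.hP
  have hu : IsUnit ((T : ℤ) : ZMod (p * l)) := by
    have h1 : IsCoprime T (l : ℤ) := by
      have e1 : (1 - 2 * (c : ℤ)) * (1 - 2 * c) = 1 := by
        rcases (by omega : c = 0 ∨ c = 1) with rfl | rfl <;> norm_num
      refine ⟨(1 - 2 * c) * q, -((1 - 2 * c) * Th), ?_⟩
      linear_combination (-(1 - 2 * (c : ℤ))) * hT + e1
    have h2 : IsCoprime T (p : ℤ) := by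
      have h3 : IsCoprime (b : ℤ) (p : ℤ) := Nat.isCoprime_iff_coprime.2 hbp
      obtain ⟨u, v, huv⟩ := h3
      refine ⟨-u, v + u * i, ?_⟩
      rw [hTi]
      linear_combination huv
    obtain ⟨u, v, huv⟩ := IsCoprime.mul_right h2 h1
    refine IsUnit.of_mul_eq_one (((u : ℤ) : ZMod (p * l))) ?_
    have h3 := congrArg (fun x : ℤ => (x : ZMod (p * l))) huv
    push_cast at h3
    have h4 : ((p : ZMod (p * l)) * (l : ZMod (p * l))) = 0 := by
      rw [← Nat.cast_mul, ZMod.natCast_self]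
    rw [h4, mul_zero, add_zero] at h3
    linear_combination h3
  have hrel1 : ∀ j, Rel q l c (z i0) (zx l i0 ρ ((T : ℤ) : ZMod (p * l)) j) (z j) := by
    intro j
    obtain ⟨n, hn, rfl⟩ := ap_row h.hAP j
    refine ⟨n * T, n * Th, n, by omega, by omega, ?_, ?_, ?_⟩
    · linear_combination (n : ℤ) * hT
    · rw [zx_at h.hAP.1 _ hn]
      push_cast
      ring
    · rw [h.hAP.2 n hn, hTh]
      push_cast
      ring
  have hrel2 : ∀ j, Rel q l c (z i0) (zx l i0 ρ ((T : ℤ) : ZMod (p * l)) j - b * l)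
      (z j - b * q) := by
    intro j
    obtain ⟨n, hn, rfl⟩ := ap_row h.hAP j
    refine ⟨n * T - b * l, n * Th - b * q, n, by omega, by omega, ?_, ?_, ?_⟩
    · linear_combination (n : ℤ) * hT
    · rw [zx_at h.hAP.1 _ hn]
      push_cast
      ring
    · rw [h.hAP.2 n hn, hTh]
      push_cast
      ring
  refine ⟨zx l i0 ρ ((T : ℤ) : ZMod (p * l)), ((T : ℤ) : ZMod (p * l)),
    { hP := ⟨hP.ha, hP.hb, hP.hab, hl0⟩, hl2 := hl2, hlp := hlp, hAP := ap_zx h.hAP.1 _, hu := hu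
      hF := ?_, hlt := ?_, hlr := h.hrl }, ?_⟩
  · intro X' W S'
    rw [ff_eq (by omega) hc (z i0) hrel1 hrel2]
    apply hFI
    intro n hln hn
    rw [h.hAP.2 n hn]
    have h1 : (n : ZMod (p * q)) * θ = ((n * Th : ℤ) : ZMod (p * q)) := by
      rw [hTh]; push_cast; ring
    rw [h1]
    refine tp_ne (Z' := n * T) (n := n) hc (by omega) (by omega) ?_ X'
    linear_combination (n : ℤ) * hT
  · have h4 : ((p : ZMod (p * l)) * (l : ZMod (p * l))) = 0 := by
      rw [← Nat.cast_mul, ZMod.natCast_self]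
    rw [hTi]
    push_cast
    linear_combination (i : ZMod (p * l)) * h4
  · intro n X Y hK
    refine ⟨?_, kk_of h hTh hT hK⟩
    rintro rfl
    obtain ⟨_, _, hX, _, hXb, _⟩ := hK
    have h4 : ((p : ZMod (p * n)) * (n : ZMod (p * n))) = 0 := by
      rw [← Nat.cast_mul, ZMod.natCast_self]
    have h5 : ((-(b * n) : ℤ) : ZMod (p * n)) = ((X : ℤ) : ZMod (p * n)) := by
      rw [← hX, hTi]
      push_cast
      linear_combination (-(i : ZMod (p * n))) * h4
    rw [ZMod.intCast_eq_intCast_iff_dvd_sub] at h5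
    obtain ⟨s, hs⟩ := h5
    push_cast at hs
    have h6 := hP.hab
    have ha := hP.ha
    have hn0 : (0 : ℤ) < n := by exact_mod_cast hl0
    rw [abs_lt] at hXb
    -- `0 < X + b n < 2 b n`, divisible by `p n`: so `b n < p n`... `X + b n = p n s`
    have h7 : X = p * n * s - b * n := by linarith
    have hs0 : 0 < s := by
      by_contra hcon
      have : (p : ℤ) * n * s ≤ 0 := mul_nonpos_of_nonneg_of_nonpos (by positivity) (not_lt.1 hcon)
      linarith
    have h8 : (p : ℤ) * n ≤ p * n * s := le_mul_of_one_le_right (by positivity) hs0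
    have h9 : (p : ℤ) * n < 2 * b * n := by linarith
    have h10 : (p : ℤ) < 2 * b := lt_of_mul_lt_mul_right h9 hn0.le
    omega

end

end Helper73.TM
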