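import Pool.Agent.Helper73.TM.Ex
import Pool.Agent.Helper25.FLT.B1

set_option autoImplicit false
set_option linter.unusedSectionVars false

/-!
# Flatness outside the ties of the first kind

The proof of `mid_loc` is the one of `Helper25.FLT.mid_ok` (helper25).
-/

namespace Helper73.TM

open Helper11.N1 Helper55.KE Helper25.FLT
open Helper11.N1.DECaux (ind ite_ind ind_and ind_congr ind_pos ind_neg)

section

variable {p q a b c : ℕ} [NeZero p] [NeZero q]

/-- the middle position of a block, the class condition only for the tie in this block -/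
theorem mid_loc (hP : Par p q a b) (hb2 : 2 * b < p) {z : ZMod p → ZMod (p * q)} (hG : Gen q z)
    (hB : Blk q b c z) (hF : ∀ X W S, rp p q X = 0 → |FF q a b z X W S| ≤ 1)
    {X : ZMod (p * q)} (hX : rp p q X = 0)
    (hM : ∀ n m : ZMod p, bx q c z n = X → byy q b c z m = X → a ≤ (m + b - n).val ∧
      (m + b - n).val + a ≤ p ∧ ¬ (c = 1 ∧ (m + b - n).val = a))
    (W : ZMod p) (S : ZMod (p * q)) :
    |FF q a b z (X + 1) W S| ≤ 1 := by
  have ha := hP.ha
  have hab := hP.hab
  have hq1 := hP.hq
  have hc := hB.hc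
  have hM1 := one_lt_mul hP
  obtain ⟨haq, hbq, habq, h2a, h2b⟩ := lt_mul_of hP
  -- the two sub-steps
  have e1 : X + 1 = X + ((1 : ℕ) : ZMod (p * q)) := by rw [Nat.cast_one]
  have hstep : ∀ m : ℕ, m < p → ∀ S, FF q a b z (X + ((m + 1 : ℕ) : ZMod (p * q))) W S -
      FF q a b z (X + (m : ZMod (p * q))) W S =
      ind (m = c) * ∑ j : ZMod p, ind (bx q c z j = X) *
        (ind (aR a W j) - ind (off (sc q z j + 1) S < a * q)) +
      ind (m = 1 - c) * ∑ j : ZMod p, ind (byy q b c z j = X) *
        (ind (off (sc q z j + 1) S < a * q) - ind (aL a b W j)) :=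
    fun m hm S => bstep hP hB hX W S hm
  have hF0 : ∀ S, |FF q a b z X W S| ≤ 1 := fun S => hF X W S hX
  -- the position after the block
  have hF2 : ∀ S, |FF q a b z (X + ((2 : ℕ) : ZMod (p * q))) W S| ≤ 1 := by
    intro S
    have h0 : ∀ m : ℕ, 2 ≤ m → m ≤ p → FF q a b z (X + (m : ZMod (p * q))) W S =
        FF q a b z (X + ((2 : ℕ) : ZMod (p * q))) W S := by
      intro m h2
      induction m, h2 using Nat.le_induction with
      | base => intro _; rfl
      | succ m hm ih =>
        intro hmp
        have h3 := hstep m (by omega) S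
        have h4 : ¬ (m = c) := by omega
        have h5 : ¬ (m = 1 - c) := by omega
        rw [ind_neg h4, ind_neg h5] at h3
        rw [← ih (by omega)]
        linarith
    rw [← h0 p (by omega) le_rfl]
    apply hF
    rw [map_add, hX, map_natCast, ZMod.natCast_self, add_zero]
  have h10 := hstep 0 (by omega) S
  have h21 := hstep 1 (by omega) S
  rw [Nat.cast_zero, add_zero] at h10
  have e2 : ((0 + 1 : ℕ) : ZMod (p * q)) = 1 := by push_cast; ring
  have e3 : ((1 + 1 : ℕ) : ZMod (p * q)) = ((2 : ℕ) : ZMod (p * q)) := rfl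
  rw [e2] at h10
  rw [e3, Nat.cast_one] at h21
  have b0 := abs_le.1 (hF0 S)
  have b2 := abs_le.1 (hF2 S)
  set F0 := FF q a b z X W S with hF0d
  set F1 := FF q a b z (X + 1) W S with hF1d
  set F2 := FF q a b z (X + ((2 : ℕ) : ZMod (p * q))) W S with hF2d
  rw [abs_le]
  -- injectivity
  have hxu : ∀ n j, bx q c z n = X → bx q c z j = X → j = n := by
    intro n j h1 h2
    apply gen_inj hG
    unfold bx at h1 h2
    have := h2.trans h1.symm
    exact sub_left_injective this
  have hyu : ∀ n j, byy q b c z n = X → byy q b c z j = X → j = n := by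
    intro n j h1 h2
    apply gen_inj hG
    unfold byy at h1 h2
    have := h2.trans h1.symm
    exact sub_left_injective (sub_left_injective this)
  by_cases hn : ∃ n, bx q c z n = X
  swap
  · push Not at hn
    have s0 : ∑ j : ZMod p, ind (bx q c z j = X) *
        (ind (aR a W j) - ind (off (sc q z j + 1) S < a * q)) = 0 := sum_none hn
    rw [s0] at h10 h21
    rcases (by omega : c = 0 ∨ c = 1) with rfl | rfl
    · have : ¬ ((0 : ℕ) = 1 - 0) := by omega
      rw [ind_neg this] at h10
      constructor <;> linarith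
    · have : ¬ ((1 : ℕ) = 1 - 1) := by omega
      rw [ind_neg this] at h21
      constructor <;> linarith
  by_cases hm : ∃ m, byy q b c z m = X
  swap
  · push Not at hm
    have s0 : ∑ j : ZMod p, ind (byy q b c z j = X) *
        (ind (off (sc q z j + 1) S < a * q) - ind (aL a b W j)) = 0 := sum_none hm
    rw [s0] at h10 h21
    rcases (by omega : c = 0 ∨ c = 1) with rfl | rfl
    · have : ¬ ((1 : ℕ) = 0) := by omega
      rw [ind_neg this] at h21
      constructor <;> linarith
    · have : ¬ ((0 : ℕ) = 1) := by omega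
      rw [ind_neg this] at h10
      constructor <;> linarith
  obtain ⟨n, hn⟩ := hn
  obtain ⟨m, hm⟩ := hm
  obtain ⟨k1, k2, k3⟩ := hM n m hn hm
  have s1 : ∑ j : ZMod p, ind (bx q c z j = X) *
      (ind (aR a W j) - ind (off (sc q z j + 1) S < a * q)) =
      ind (aR a W n) - ind (off (sc q z n + 1) S < a * q) :=
    sum_one (P := fun j => bx q c z j = X) hn (fun j hj => hxu n j hn hj)
  have s2 : ∑ j : ZMod p, ind (byy q b c z j = X) *
      (ind (off (sc q z j + 1) S < a * q) - ind (aL a b W j)) =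
      ind (off (sc q z m + 1) S < a * q) - ind (aL a b W m) :=
    sum_one (P := fun j => byy q b c z j = X) hm (fun j hj => hyu m j hm hj)
  rw [s1, s2] at h10 h21
  set κ : ZMod p := m + b - n with hκ
  -- the arcs of the levels are disjoint
  have hRL : ¬ (aR a W n ∧ aL a b W m) := by
    rintro ⟨h1, h2⟩
    unfold aR at h1
    unfold aL at h2
    have e4 : W - (b : ZMod p) - 1 - m = (W - 1 - n) - κ := by rw [hκ]; ring
    rw [e4] at h2
    exact arcs k1 k2 h1 h2
  have hRL' : ind (aR a W n) + ind (aL a b W m) ≤ 1 := by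
    by_cases c1 : aR a W n <;> by_cases c2 : aL a b W m
    · exact absurd ⟨c1, c2⟩ hRL
    · rw [ind_pos c1, ind_neg c2]; norm_num
    · rw [ind_neg c1, ind_pos c2]; norm_num
    · rw [ind_neg c1, ind_neg c2]; norm_num
  have r0 : 0 ≤ ind (aR a W n) := by
    by_cases h : aR a W n
    · rw [ind_pos h]; norm_num
    · rw [ind_neg h]
  have r1 : ind (aR a W n) ≤ 1 := by
    by_cases h : aR a W n
    · rw [ind_pos h]
    · rw [ind_neg h]; norm_num
  have l0 : 0 ≤ ind (aL a b W m) := by
    by_cases h : aL a b W m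
    · rw [ind_pos h]; norm_num
    · rw [ind_neg h]
  have l1 : ind (aL a b W m) ≤ 1 := by
    by_cases h : aL a b W m
    · rw [ind_pos h]
    · rw [ind_neg h]; norm_num
  have hκq : e p q κ = ((q * κ.val : ℕ) : ZMod (p * q)) := rfl
  have heκ : e p q m + (b : ZMod (p * q)) * (q : ZMod (p * q)) = e p q n + e p q κ := by
    have h1 : m + (b : ZMod p) = n + κ := by rw [hκ]; ring
    have h2 := congrArg (e p q) h1
    rw [e_add, e_add, e_natCast, Nat.cast_mul] at h2
    exact h2
  rcases (by omega : c = 0 ∨ c = 1) with rfl | rfl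
  · -- first the right side
    have i1 : ind ((0 : ℕ) = 0) = 1 := ind_pos rfl
    have i2 : ind ((0 : ℕ) = 1 - 0) = 0 := ind_neg (by omega)
    have i3 : ind ((1 : ℕ) = 0) = 0 := ind_neg (by omega)
    have i4 : ind ((1 : ℕ) = 1 - 0) = 1 := ind_pos rfl
    rw [i1, i2] at h10
    rw [i3, i4] at h21
    unfold bx at hn
    unfold byy at hm
    have hzn : z n = X := by
      rw [← hn]; push_cast; ring
    have hzm : z m = X + b * q + 1 := by
      rw [← hm]; push_cast; ring
    have hs : sc q z m = sc q z n + 1 + ((q * κ.val : ℕ) : ZMod (p * q)) := by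
      unfold sc
      rw [hzn, hzm, ← hκq]
      linear_combination heκ
    have hκp : κ.val < p := ZMod.val_lt κ
    have hκq1 : q * κ.val + q * a ≤ q * p := by
      rw [← mul_add]
      exact Nat.mul_le_mul_left q k2
    have hκq2 : q * a ≤ q * κ.val := Nat.mul_le_mul_left q k1
    have hcomm : p * q = q * p := mul_comm p q
    have hcomm2 : a * q = q * a := mul_comm a q
    have haq0 : 0 < q * a := Nat.mul_pos (by omega) (by omega)
    have haq1 : q * 2 ≤ q * a := Nat.mul_le_mul_left q ha
    have h6 : off (sc q z n + 1) (sc q z m + 1) = q * κ.val + 1 := by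
      have h7 : sc q z m + 1 = sc q z n + 1 + ((q * κ.val + 1 : ℕ) : ZMod (p * q)) := by
        rw [hs]; push_cast; ring
      rw [h7, off_nat _ (by omega)]
    have h5 := off_add (sc q z n + 1) (sc q z m + 1) S
    rw [h6] at h5
    rcases ind01 (off (sc q z n + 1) S < a * q) with ⟨g1, hI⟩ | ⟨g1, hI⟩ <;>
      rcases ind01 (off (sc q z m + 1) S < a * q) with ⟨g2, hJ⟩ | ⟨g2, hJ⟩ <;>
      rw [g1] at h10 <;> rw [g2] at h21
    · constructor <;> linarith
    · constructor <;> linarith
    · -- only the ordinate of `n`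
      rcases ind01 (aR a W n) with ⟨g3, hr⟩ | ⟨g3, hr⟩ <;> rw [g3] at h10
      · constructor <;> linarith
      · constructor <;> linarith
    · -- both ordinates: the special one
      by_contra hcon
      rcases ind01 (aR a W n) with ⟨g3, hr⟩ | ⟨g3, hr⟩
      swap
      · rw [g3] at h10
        exact hcon ⟨by linarith, by linarith⟩
      rcases ind01 (aL a b W m) with ⟨g4, hl⟩ | ⟨g4, hl⟩
      swap
      · rw [g4] at h21
        exact hcon ⟨by linarith, by linarith⟩
      rw [g3] at h10
      rw [g4] at h21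
      have f1 : F1 = -2 := by
        by_contra hf
        apply hcon
        have : -2 ≤ F1 := by linarith
        have h8 : F1 ≠ -2 := hf
        constructor
        · omega
        · linarith
      have f0 : F0 = -1 := by linarith
      have f2 : F2 = -1 := by linarith
      rcases h5 with h5 | h5
      · omega
      have hu : off (sc q z n + 1) S = 0 := by omega
      have hκa : q * κ.val + q * a = q * p := by omega
      have hSn : S = sc q z n + 1 := (off_eq_zero.1 hu).symm
      have hκa' : κ.val + a = p := by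
        have h9 : q * (κ.val + a) = q * p := by rw [mul_add]; exact hκa
        exact Nat.eq_of_mul_eq_mul_left (by omega) h9
      -- the bottom of `n`
      have t1 := sbot hP hG X W n
      rw [← hSn, ← hF0d, f0] at t1
      have t2 := abs_le.1 (hF0 (sc q z n))
      have t3 : ind (off X (z n) < b * q) = 1 := by
        apply ind_pos
        rw [hzn, off_self]
        exact Nat.mul_pos (by have := hP.hb; omega) (by omega)
      rw [t3] at t1
      have hBn : aB b W n := by
        rcases ind01 (aB b W n) with ⟨g5, hb5⟩ | ⟨g5, hb5⟩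
        · rw [g5] at t1
          linarith [t2.1]
        · exact hb5
      -- the top of `m`
      have hsm : sc q z m + a * q = S := by
        rw [hs, hSn]
        have h7 : ((q * κ.val + q * a : ℕ) : ZMod (p * q)) = 0 := by
          rw [hκa, ← hcomm, ZMod.natCast_self]
        push_cast at h7 ⊢
        linear_combination h7
      have t4 := stop hP hG (X + ((2 : ℕ) : ZMod (p * q))) W m
      rw [hsm, ← hF2d, f2] at t4
      have t5 := abs_le.1 (hF2 (S + 1))
      have t6 : ind (off (X + ((2 : ℕ) : ZMod (p * q))) (z m) < b * q) = 1 := by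
        apply ind_pos
        have hb0 := hP.hb
        have hbq2 : 2 * 1 ≤ b * q := Nat.mul_le_mul hb0 hq1
        have h7 : z m = X + ((2 : ℕ) : ZMod (p * q)) + ((b * q - 1 : ℕ) : ZMod (p * q)) := by
          rw [hzm, Nat.cast_sub (by omega)]
          push_cast
          ring
        rw [h7, off_nat _ (by omega)]
        omega
      rw [t6] at t4
      have hTm : aT a b W m := by
        rcases ind01 (aT a b W m) with ⟨g5, hb5⟩ | ⟨g5, hb5⟩
        · rw [g5] at t4
          linarith [t5.1]
        · exact hb5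
      unfold aB at hBn
      unfold aT at hTm
      have h11 : W - (a : ZMod p) - 1 - m = ((W - 1 - n).val + b : ℕ) := by
        have h12 : κ + (a : ZMod p) = 0 := by
          have h13 : ((κ.val + a : ℕ) : ZMod p) = 0 := by rw [hκa', ZMod.natCast_self]
          rw [Nat.cast_add, ZMod.natCast_zmod_val] at h13
          exact h13
        rw [Nat.cast_add, ZMod.natCast_zmod_val]
        rw [hκ] at h12
        linear_combination -h12
      rw [h11, ZMod.val_natCast_of_lt (by omega)] at hTm
      omega
  · -- first the left side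
    have i1 : ind ((0 : ℕ) = 1) = 0 := ind_neg (by omega)
    have i2 : ind ((0 : ℕ) = 1 - 1) = 1 := ind_pos rfl
    have i3 : ind ((1 : ℕ) = 1) = 1 := ind_pos rfl
    have i4 : ind ((1 : ℕ) = 1 - 1) = 0 := ind_neg (by omega)
    rw [i1, i2] at h10
    rw [i3, i4] at h21
    unfold bx at hn
    unfold byy at hm
    have hzn : z n = X + 1 := by
      rw [← hn]; push_cast; ring
    have hzm : z m = X + b * q := by
      rw [← hm]; push_cast; ring
    have hs : sc q z m + 1 = sc q z n + ((q * κ.val : ℕ) : ZMod (p * q)) := by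
      unfold sc
      rw [hzn, hzm, ← hκq]
      linear_combination heκ
    have hκp : κ.val < p := ZMod.val_lt κ
    have hκq1 : q * κ.val + q * a ≤ q * p := by
      rw [← mul_add]
      exact Nat.mul_le_mul_left q k2
    have hκ3 : a < κ.val := by
      rcases Nat.lt_or_ge a κ.val with h | h
      · exact h
      · exact absurd ⟨rfl, by omega⟩ k3
    have hκq2 : q * (a + 1) ≤ q * κ.val := Nat.mul_le_mul_left q hκ3
    rw [mul_add] at hκq2
    have hcomm : p * q = q * p := mul_comm p q
    have hcomm2 : a * q = q * a := mul_comm a q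
    have h6 : off (sc q z n) (sc q z m + 1) = q * κ.val := by
      rw [hs, off_nat _ (by omega)]
    have h5 := off_add (sc q z n) (sc q z m + 1) S
    have h7 : off (sc q z n) (sc q z n + 1) = 1 := by
      have := off_nat (sc q z n) (n := 1) hM1
      rwa [Nat.cast_one] at this
    have h8 := off_add (sc q z n) (sc q z n + 1) S
    rw [h6] at h5
    rw [h7] at h8
    have h9 := off_lt (sc q z n) S
    rcases ind01 (off (sc q z n + 1) S < a * q) with ⟨g1, hI⟩ | ⟨g1, hI⟩ <;>
      rcases ind01 (off (sc q z m + 1) S < a * q) with ⟨g2, hJ⟩ | ⟨g2, hJ⟩ <;>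
      rw [g2] at h10 <;> rw [g1] at h21
    · constructor <;> linarith
    · constructor <;> linarith
    · constructor <;> linarith
    · exfalso
      omega

/-- flatness at a position, the class condition only for the tie in the block -/
theorem full_loc (hP : Par p q a b) (hb2 : 2 * b < p) {z : ZMod p → ZMod (p * q)} (hG : Gen q z)
    (hB : Blk q b c z) (hF : ∀ X W S, rp p q X = 0 → |FF q a b z X W S| ≤ 1)
    (X : ZMod (p * q))
    (hM : ∀ n m : ZMod p, bx q c z n + 1 = X → byy q b c z m + 1 = X → a ≤ (m + b - n).val ∧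
      (m + b - n).val + a ≤ p ∧ ¬ (c = 1 ∧ (m + b - n).val = a))
    (W : ZMod p) (S : ZMod (p * q)) : |FF q a b z X W S| ≤ 1 := by
  have ha := hP.ha
  have hab := hP.hab
  have hc := hB.hc
  set m := (rp p q X).val with hm
  have hmp : m < p := ZMod.val_lt _
  obtain ⟨X0, hX0⟩ : ∃ X0 : ZMod (p * q), X = X0 + (m : ZMod (p * q)) := ⟨X - m, by ring⟩
  have hr0 : rp p q X0 = 0 := by
    have h1 : rp p q X = rp p q X0 + (m : ZMod p) := by rw [hX0, map_add, map_natCast]
    rw [hm, ZMod.natCast_zmod_val] at h1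
    exact right_eq_add.1 h1
  rcases Nat.lt_or_ge m 2 with h2 | h2
  · rcases (by omega : m = 0 ∨ m = 1) with h3 | h3
    · rw [hX0, h3, Nat.cast_zero, add_zero]
      exact hF X0 W S hr0
    · rw [hX0, h3, Nat.cast_one]
      refine mid_loc hP hb2 hG hB hF hr0 ?_ W S
      intro n m' h4 h5
      refine hM n m' ?_ ?_
      · rw [h4, hX0, h3, Nat.cast_one]
      · rw [h5, hX0, h3, Nat.cast_one]
  · have h0 : ∀ t : ℕ, 2 ≤ t → t ≤ p → FF q a b z (X0 + (t : ZMod (p * q))) W S =
        FF q a b z (X0 + ((2 : ℕ) : ZMod (p * q))) W S := by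
      intro t ht
      induction t, ht using Nat.le_induction with
      | base => intro _; rfl
      | succ t ht ih =>
        intro htp
        have h3 := bstep hP hB hr0 W S (m := t) (by omega)
        have h4 : ¬ (t = c) := by omega
        have h5 : ¬ (t = 1 - c) := by omega
        rw [ind_neg h4, ind_neg h5] at h3
        rw [← ih (by omega)]
        linarith
    rw [hX0, h0 m h2 hmp.le, ← h0 p (by omega) le_rfl]
    apply hF
    rw [map_add, hr0, map_natCast, ZMod.natCast_self, add_zero]

/-- a tie of the second kind which is harmful -/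
def Tie2 {p : ℕ} (q a b c l : ℕ) (z : ZMod p → ZMod (p * q)) (i0 ρ : ZMod p) : Prop :=
  ∃ n m : ℕ, n < p ∧ m < p ∧ m + l = n + q ∧
    z (i0 + (m : ZMod p) * ρ) - (b : ZMod (p * q)) * q =
      z (i0 + (n : ZMod p) * ρ) + ((1 - 2 * (c : ℤ) : ℤ) : ZMod (p * q)) ∧
    ∃ κ : ℤ, (κ : ZMod p) = (i0 + (m : ZMod p) * ρ) + b - (i0 + (n : ZMod p) * ρ) ∧
      (|κ| < a ∨ (c = 1 ∧ κ = a))

/-- flatness outside the ties of the first kind -/
theorem flat_off {l : ℕ} {z : ZMod p → ZMod (p * q)} {i0 ρ : ZMod p} {θ : ZMod (p * q)} {δ : ℕ}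
    {k : ℤ} (h : LS p q a b c z i0 ρ θ δ l k) (h2b : 2 * b < p) (hT : ¬ Tie2 q a b c l z i0 ρ)
    (X : ZMod (p * q)) (W : ZMod p) (S : ZMod (p * q))
    (hX : ∀ n : ℕ, l ≤ n → n < p →
      X ≠ z (i0 + (n : ZMod p) * ρ) + ((1 - c : ℤ) : ZMod (p * q))) :
    |FF q a b z X W S| ≤ 1 := by
  have hc := h.hB.hc
  refine full_loc h.hP h2b h.hG h.hB h.hF X ?_ W S
  intro n m h1 h2
  obtain ⟨n, hn, rfl⟩ := ap_row h.hAP n
  obtain ⟨m, hm, rfl⟩ := ap_row h.hAP m
  have hc1 : ((1 - c : ℤ) : ZMod (p * q)) = ((1 - c : ℕ) : ZMod (p * q)) := by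
    rcases (by omega : c = 0 ∨ c = 1) with rfl | rfl <;> norm_num
  have hcc : ((1 - c : ℕ) : ZMod (p * q)) + (c : ZMod (p * q)) = 1 := by
    rcases (by omega : c = 0 ∨ c = 1) with rfl | rfl <;> norm_num
  have hM : z (i0 + (m : ZMod p) * ρ) - (b : ZMod (p * q)) * q =
      z (i0 + (n : ZMod p) * ρ) + ((1 - 2 * (c : ℤ) : ℤ) : ZMod (p * q)) := by
    unfold byy at h2
    unfold bx at h1
    have h3 := h1.trans h2.symm
    rw [h.castc]
    linear_combination -h3
  -- the index difference
  have hidx : ((m + l - n : ℤ) : ZMod (p * q)) * θ = 0 := by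
    have h3 := h.hAP.2 n hn
    have h4 := h.hAP.2 m hm
    have h5 := h.hxl
    rw [h3, h4] at hM
    push_cast at h5 hM ⊢
    linear_combination hM + h5
  have hdvd : (q : ℤ) ∣ (m + l - n : ℤ) := by
    by_contra hcon
    have h6 := congrArg (res p q) hidx
    have h4 := h.ndvd (X := 0) (m := (m + l - n : ℤ)) (by
      rw [map_zero, map_mul] at h6
      rw [Int.cast_zero, ← h6]
      push_cast
      rw [map_sub, map_add, map_natCast, map_natCast, map_natCast]) hcon
    exact h4 ⟨0, by ring⟩
  have hpq := h.hpq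
  have hlp := h.hl
  have hl0 := h.hl0
  obtain ⟨s, hs⟩ := hdvd
  have hs01 : s = 0 ∨ s = 1 := by
    have h7 : s < 2 := by
      by_contra h8
      have h9 : (q : ℤ) * 2 ≤ q * s := mul_le_mul_of_nonneg_left (not_lt.1 h8) (by omega)
      omega
    have h8 : -1 < s := by
      by_contra h8
      have h9 : (q : ℤ) * s ≤ q * (-1) := mul_le_mul_of_nonneg_left (not_lt.1 h8) (by omega)
      omega
    omega
  rcases hs01 with rfl | rfl
  · exfalso
    rw [mul_zero] at hs
    refine hX n (by omega) hn ?_
    rw [← h1, hc1]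
    unfold bx
    linear_combination -hcc
  · rw [mul_one] at hs
    by_contra hcon
    apply hT
    set κ : ZMod p := i0 + (m : ZMod p) * ρ + (b : ZMod p) - (i0 + (n : ZMod p) * ρ) with hκ
    have hκp : κ.val < p := ZMod.val_lt κ
    refine ⟨n, m, hn, hm, by omega, hM, ?_⟩
    rcases Nat.lt_or_ge κ.val a with h3 | h3
    · refine ⟨κ.val, by rw [Int.cast_natCast, ZMod.natCast_zmod_val], Or.inl ?_⟩
      rw [Nat.abs_cast]
      exact_mod_cast h3
    · rcases Nat.lt_or_ge p (κ.val + a) with h4 | h4
      · refine ⟨(κ.val : ℤ) - p, by push_cast; rw [ZMod.natCast_self, ZMod.natCast_zmod_val]; ring,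
          Or.inl ?_⟩
        rw [abs_of_neg (by omega)]
        omega
      · have h5 : c = 1 ∧ κ.val = a := by
          by_contra h6
          exact hcon ⟨h3, h4, h6⟩
        refine ⟨κ.val, by rw [Int.cast_natCast, ZMod.natCast_zmod_val], Or.inr ⟨h5.1, ?_⟩⟩
        rw [h5.2]

/-- THE TRANSFER: a progression with a tie vector, without harmful ties of the second kind, has an
exact tie model; overlap vectors of the exact model are overlap vectors of the progression -/
theorem exists_ex {l : ℕ} [NeZero l] {z : ZMod p → ZMod (p * q)} {i0 ρ : ZMod p}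
    {θ : ZMod (p * q)} {δ : ℕ} {k : ℤ} (h : LS p q a b c z i0 ρ θ δ l k) (hl2 : 2 ≤ l)
    (hbp : b.Coprime p) (h2b : 2 * b < p) (hT : ¬ Tie2 q a b c l z i0 ρ) :
    ∃ (z' : ZMod p → ZMod (p * l)) (τ : ZMod (p * l)), EX p l a b z' i0 ρ τ k ∧
      ∀ (n : ℕ) (X Y : ℤ), KK p l a b τ (τ + e p l ρ) n X Y → n ≠ l ∧
        ∃ x y : ℤ, (l : ℤ) * x = q * X - (1 - 2 * c) * n ∧ (l : ℤ) * y = q * Y - (1 - 2 * c) * n ∧
          KK p q a b θ (θ + e p q ρ) n x y :=
  ex_of_ls h hl2 hbp h2b fun X W S hX => flat_off h h2b hT X W S hX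

/-- no overlap vectors: the boxes are disjoint -/
theorem disj_of_kk (hP : Par p q a b) {z : ZMod p → ZMod (p * q)} {i0 ρ : ZMod p}
    {θ : ZMod (p * q)} (hAP : AP q z i0 ρ θ)
    (hK : ∀ (n : ℕ) (x y : ℤ), ¬ KK p q a b θ (θ + e p q ρ) n x y) : Disj q a b z := by
  have hq1 := hP.hq
  obtain ⟨haq, hbq, habq, h2a, h2b⟩ := lt_mul_of hP
  have hhaq : ((a * q : ℕ) : ℤ) = (a : ℤ) * q := by push_cast; ring
  have hhbq : ((b * q : ℕ) : ℤ) = (b : ℤ) * q := by push_cast; ring
  have key : ∀ (n m : ℕ) (X S : ZMod (p * q)), n < p → m < p → n < m →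
      box q a b z (i0 + (n : ZMod p) * ρ) X S → box q a b z (i0 + (m : ZMod p) * ρ) X S →
      False := by
    intro n m X S hn hm hnm h1 h2
    obtain ⟨h3, h4⟩ := h1
    obtain ⟨h5, h6⟩ := h2
    set zn := z (i0 + (n : ZMod p) * ρ) with hzn
    set zm := z (i0 + (m : ZMod p) * ρ) with hzm
    set sn := sc q z (i0 + (n : ZMod p) * ρ) with hsn
    set sm := sc q z (i0 + (m : ZMod p) * ρ) with hsm
    have e1 : zn = X + (off X zn : ZMod (p * q)) := (off_spec _ _).symm
    have e2 : zm = X + (off X zm : ZMod (p * q)) := (off_spec _ _).symm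
    have e3 : sn + 1 + (off (sn + 1) S : ZMod (p * q)) = S := off_spec _ _
    have e4 : sm + 1 + (off (sm + 1) S : ZMod (p * q)) = S := off_spec _ _
    set tn := off X zn
    set tm := off X zm
    set un := off (sn + 1) S
    set um := off (sm + 1) S
    have f1 : zn = z i0 + (n : ZMod (p * q)) * θ := hAP.2 n hn
    have f2 : zm = z i0 + (m : ZMod (p * q)) * θ := hAP.2 m hm
    have f3 : sn = sc q z i0 + (n : ZMod (p * q)) * (θ + e p q ρ) := ap_sc hAP hn
    have f4 : sm = sc q z i0 + (m : ZMod (p * q)) * (θ + e p q ρ) := ap_sc hAP hm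
    refine hK (m - n) ((tm : ℤ) - tn) ((un : ℤ) - um) ⟨by omega, by omega, ?_, ?_, ?_, ?_⟩
    · rw [Nat.cast_sub hnm.le]
      push_cast
      linear_combination -f2 + f1 + e2 - e1
    · rw [Nat.cast_sub hnm.le]
      push_cast
      linear_combination -f4 + f3 + e4 - e3
    · rw [abs_lt]; constructor <;> omega
    · rw [abs_lt]; constructor <;> omega
  intro i j X S hi hj
  obtain ⟨n, hn, rfl⟩ := ap_row hAP i
  obtain ⟨m, hm, rfl⟩ := ap_row hAP j
  rcases lt_trichotomy n m with h | h | h
  · exact (key n m X S hn hm h hi hj).elim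
  · rw [h]
  · exact (key m n X S hm hn h hj hi).elim

end

end Helper73.TM
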